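import Pool.Agent.FLX.Stmts
import Pool.Agent.FLX.Kit

/-!
# FLX, row REG: bootstrap
-/

set_option autoImplicit false

open scoped InnerProductSpace Topology ContDiff Manifold
open MeasureTheory Filter Set

noncomputable section

namespace Pool.Agent.FLX.H39

open Pool.Agent.Helper42_Paneitz Pool.Agent.Helper82_Vir Pool.Agent.FLX

/-- a smooth function times the exponential of a function of class `C^k` -/
theorem cks_nonlin {k : ℕ} {Q w : S4 → ℝ} (hQ : CkS k Q) (hw : CkS k w) :
    CkS k (fun y => Q y * Real.exp (4 * w y)) := by
  intro y hy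
  have h1 : ContDiffAt ℝ k (fun z => radialExt Q z * Real.exp (4 * radialExt w z)) y :=
    (hQ y hy).mul ((contDiffAt_const.mul (hw y hy)).exp)
  refine h1.congr_of_eventuallyEq ?_
  filter_upwards [eventually_ne_zero hy] with z hz
  simp only [radialExt_apply _ hz]

/-- adding a constant -/
theorem cks_add_const {k : ℕ} {u : S4 → ℝ} (hu : CkS k u) (c : ℝ) : CkS k (fun y => u y + c) := by
  intro y hy
  have h1 : ContDiffAt ℝ k (fun z => radialExt u z + c) y := (hu y hy).add contDiffAt_const
  refine h1.congr_of_eventuallyEq ?_
  filter_upwards [eventually_ne_zero hy] with z hz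
  simp only [radialExt_apply _ hz]

theorem reg (hRec : RecStmt) : RegStmt := by
  intro Q w c hQ hw hEq
  have hw' : w = fun x => K (fun y => Q y * Real.exp (4 * w y)) x + c := funext hEq
  apply sm_of_cks
  intro k
  induction k with
  | zero => exact cks_zero_of_continuous hw
  | succ k ih =>
    have h1 := hRec k _ (cks_nonlin (cks_of_sm hQ k) ih)
    have h2 := cks_add_const h1 c
    rw [hw']
    exact h2

end Pool.Agent.FLX.H39
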